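import Pool.Agent.H15.KM7.Stmts

/-!
# From matrices to sections

The rows of an invertible real matrix are brought to the form of a section (Hermite form with dyadic
numbers), up to a bounded matrix. The longer row is normalised at its larger entry.
-/

set_option autoImplicit false

namespace Pool.KM7

open Finset Real

namespace Cnv

/-- Two exponents. -/
theorem exps {C D M : ℝ} {w R : ℕ} (hC : 1 ≤ C) (hwR : w ≤ R) (hM : 0 < M)
    (h1 : 2 ^ w ≤ C * D) (h2 : D ≤ 2 * M) (h3 : M ≤ C * 2 ^ R) :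
    ∃ h p : ℕ, w ≤ h ∧ h + p ≤ R ∧ 2 ^ h ≤ C * D ∧ D ≤ 2 * C * 2 ^ h ∧
      2 ^ (h + p) ≤ 2 * C * M ∧ M ≤ 2 * C * 2 ^ (h + p) := by
  have hC0 : 0 < C := by linarith only [hC]
  have hw1 : (1 : ℝ) ≤ 2 ^ w := one_le_pow₀ (by norm_num)
  have hCD : 1 ≤ C * D := hw1.trans h1
  have hD : 0 < D := by
    by_contra hc
    have : C * D ≤ 0 := mul_nonpos_of_nonneg_of_nonpos hC0.le (not_lt.1 hc)
    linarith only [h1, hw1, this]
  obtain ⟨n, hn1, hn2⟩ := exists_nat_pow_near (le_max_left (1 : ℝ) D) (one_lt_two)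
  obtain ⟨k, hk1, hk2⟩ := exists_nat_pow_near (le_max_left (1 : ℝ) M) (one_lt_two)
  have hDn : D ≤ 2 * 2 ^ n := by
    have := (le_max_right (1 : ℝ) D).trans hn2.le
    rw [pow_succ] at this
    linarith only [this]
  have hMk : M ≤ 2 * 2 ^ k := by
    have := (le_max_right (1 : ℝ) M).trans hk2.le
    rw [pow_succ] at this
    linarith only [this]
  have hDCD : D ≤ C * D := le_mul_of_one_le_left hD.le hC
  have hn3 : (2 : ℝ) ^ n ≤ C * D := hn1.trans (max_le hCD hDCD)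
  have hCDM : C * D ≤ 2 * C * M := by nlinarith only [h2, hC]
  have hk3 : (2 : ℝ) ^ k ≤ 2 * C * M := by
    refine hk1.trans (max_le (hCD.trans hCDM) ?_)
    nlinarith only [h1, hw1, hCDM, hC, hM]
  have hDR : D ≤ 2 * C * 2 ^ R := by nlinarith only [h2, h3]
  have hR0 : (0 : ℝ) < 2 ^ R := by positivity
  have hn0 : (0 : ℝ) < 2 ^ n := by positivity
  have hk0 : (0 : ℝ) < 2 ^ k := by positivity
  have hh1 : (2 : ℝ) ^ (min R (max w n)) ≤ C * D := by
    refine (pow_le_pow_right₀ (by norm_num) (min_le_right R (max w n))).trans ?_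
    rcases le_total w n with h | h
    · rw [max_eq_right h]
      exact hn3
    · rw [max_eq_left h]
      exact h1
  have hh2 : D ≤ 2 * C * 2 ^ (min R (max w n)) := by
    rcases le_total R (max w n) with h | h
    · rw [min_eq_left h]
      exact hDR
    · rw [min_eq_right h]
      have h4 : (2 : ℝ) ^ n ≤ 2 ^ (max w n) := pow_le_pow_right₀ (by norm_num) (le_max_right w n)
      nlinarith only [hDn, hDCD, h4, hC]
  have hle : min R (max w n) ≤ max (min R (max w n)) (min R k) := le_max_left _ _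
  have hsum : min R (max w n) + (max (min R (max w n)) (min R k) - min R (max w n)) =
      max (min R (max w n)) (min R k) := Nat.add_sub_cancel' hle
  refine ⟨min R (max w n), max (min R (max w n)) (min R k) - min R (max w n),
    le_min hwR (le_max_left _ _), ?_, hh1, hh2, ?_, ?_⟩
  · rw [hsum]
    exact max_le (min_le_left _ _) (min_le_left _ _)
  · rw [hsum]
    rcases le_total (min R (max w n)) (min R k) with h | h
    · rw [max_eq_right h]
      exact (pow_le_pow_right₀ (by norm_num) (min_le_right R k)).trans hk3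
    · rw [max_eq_left h]
      exact hh1.trans hCDM
  · rw [hsum]
    have h4 : M ≤ 2 * C * 2 ^ (min R k) := by
      rcases le_total R k with h | h
      · rw [min_eq_left h]
        nlinarith only [hM, h3]
      · rw [min_eq_right h]
        nlinarith only [hMk, hC, hM]
    have h5 : (2 : ℝ) ^ (min R k) ≤ 2 ^ (max (min R (max w n)) (min R k)) :=
      pow_le_pow_right₀ (by norm_num) (le_max_right _ _)
    exact h4.trans (mul_le_mul_of_nonneg_left h5 (by linarith only [hC]))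

/-- The normal form of a matrix whose first entry is the largest one. -/
theorem core {C : ℝ} {w R : ℕ} (hC : 1 ≤ C) (hwR : w ≤ R) {rf rs gf gs : ℝ} (hrf : rf ≠ 0)
    (hrs : |rs| ≤ |rf|) (hgf : |gf| ≤ |rf|) (hgs : |gs| ≤ |rf|)
    (h1 : 2 ^ w * |rf| ≤ C * |rf * gs - rs * gf|) (h3 : |rf| ≤ C * 2 ^ R) :
    ∃ (h p : ℕ) (a : ℤ), w ≤ h ∧ h + p ≤ R ∧ |a| ≤ 4 * 2 ^ p ∧
      (∃ t₀ t₁ t₂ t₃ : ℝ, |t₀| ≤ 3 * C ∧ |t₁| ≤ 3 * C ∧ |t₂| ≤ 3 * C ∧ |t₃| ≤ 3 * C ∧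
        ∀ xf xs : ℝ, 2 ^ h * (2 ^ p * xf + a * xs) =
            t₀ * (rf * xf + rs * xs) + t₁ * (gf * xf + gs * xs) ∧
          2 ^ h * xs = t₂ * (rf * xf + rs * xs) + t₃ * (gf * xf + gs * xs)) ∧
      |rf * gs - rs * gf| ≤ 4 * C ^ 2 * 2 ^ (2 * h + p) ∧
      2 ^ p * |rf * gs - rs * gf| ≤ 4 * C ^ 2 * |rf| ^ 2 := by
  have hC0 : 0 < C := by linarith only [hC]
  have hM : 0 < |rf| := abs_pos.2 hrf
  have hw1 : (1 : ℝ) ≤ 2 ^ w := one_le_pow₀ (by norm_num)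
  set dt : ℝ := rf * gs - rs * gf with hdt
  have hdtp : 0 < |dt| := by
    by_contra hc
    have h4 : |dt| ≤ 0 := not_lt.1 hc
    have h5 : C * |dt| ≤ 0 := mul_nonpos_of_nonneg_of_nonpos hC0.le h4
    have h6 : |rf| ≤ 2 ^ w * |rf| := le_mul_of_one_le_left hM.le hw1
    linarith only [hM, h1, h5, h6]
  have hdt0 : dt ≠ 0 := abs_pos.1 hdtp
  have hD1 : (2 : ℝ) ^ w ≤ C * (|dt| / |rf|) := by
    rw [← mul_div_assoc, le_div_iff₀ hM]
    exact h1
  have hD2 : |dt| / |rf| ≤ 2 * |rf| := by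
    rw [div_le_iff₀ hM]
    calc |dt| ≤ |rf * gs| + |rs * gf| := abs_sub _ _
      _ = |rf| * |gs| + |rs| * |gf| := by rw [abs_mul, abs_mul]
      _ ≤ |rf| * |rf| + |rf| * |rf| :=
        add_le_add (mul_le_mul_of_nonneg_left hgs hM.le)
          (mul_le_mul hrs hgf (abs_nonneg _) hM.le)
      _ = _ := by ring
  obtain ⟨h, p, hw, hR, e1, e2, e3, e4⟩ := exps hC hwR hM hD1 hD2 h3
  set D : ℝ := |dt| / |rf| with hDdef
  have hDM : D * |rf| = |dt| := by rw [hDdef]; field_simp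
  have hDpos : 0 < D := div_pos hdtp hM
  set σ : ℝ := rs / rf with hσ
  have hσ1 : |σ| ≤ 1 := by
    rw [hσ, abs_div, div_le_one hM]
    exact hrs
  have hσr : rf * σ = rs := by rw [hσ]; field_simp
  have h2p : (1 : ℝ) ≤ 2 ^ p := one_le_pow₀ (by norm_num)
  have h2p0 : (0 : ℝ) < 2 ^ p := by positivity
  have h2h0 : (0 : ℝ) < 2 ^ h := by positivity
  refine ⟨h, p, ⌊2 ^ p * σ⌋, hw, hR, ?_, ?_, ?_, ?_⟩
  · have ha1 : (⌊2 ^ p * σ⌋ : ℝ) ≤ 2 ^ p * σ := Int.floor_le _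
    have ha2 : 2 ^ p * σ < (⌊2 ^ p * σ⌋ : ℝ) + 1 := Int.lt_floor_add_one _
    rw [abs_le] at hσ1
    have ha3 : (|⌊2 ^ p * σ⌋| : ℤ) ≤ 4 * 2 ^ p ↔ |(⌊2 ^ p * σ⌋ : ℝ)| ≤ 4 * 2 ^ p := by
      exact_mod_cast Iff.rfl
    rw [ha3, abs_le]
    constructor <;> nlinarith
  · set ε : ℝ := (⌊2 ^ p * σ⌋ : ℝ) - 2 ^ p * σ with hε
    have hε1 : |ε| ≤ 1 := by
      rw [hε, abs_le]
      have ha1 : (⌊2 ^ p * σ⌋ : ℝ) ≤ 2 ^ p * σ := Int.floor_le _
      have ha2 : 2 ^ p * σ < (⌊2 ^ p * σ⌋ : ℝ) + 1 := Int.lt_floor_add_one _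
      constructor <;> linarith
    have hq : ∀ y : ℝ, |y| ≤ |rf| → |2 ^ h * y / dt| ≤ C := by
      intro y hy
      rw [abs_div, abs_mul, abs_of_pos h2h0, div_le_iff₀ hdtp]
      calc 2 ^ h * |y| ≤ C * D * |rf| := mul_le_mul e1 hy (abs_nonneg _) (by positivity)
        _ = C * |dt| := by rw [mul_assoc, hDM]
    have hr1 : |2 ^ (h + p) / rf| ≤ 2 * C := by
      rw [abs_div, abs_of_pos (by positivity), div_le_iff₀ hM]
      exact e3
    have q1 := hq gf hgf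
    have q2 := hq rf le_rfl
    have b1 : |2 ^ (h + p) / rf - ε * (2 ^ h * gf / dt)| ≤ 3 * C := by
      calc _ ≤ |2 ^ (h + p) / rf| + |ε * (2 ^ h * gf / dt)| := abs_sub _ _
        _ ≤ 2 * C + 1 * C := by
          refine add_le_add hr1 ?_
          rw [abs_mul]
          exact mul_le_mul hε1 q1 (abs_nonneg _) zero_le_one
        _ = _ := by ring
    have b2 : |ε * (2 ^ h * rf / dt)| ≤ 3 * C := by
      calc _ = |ε| * |2 ^ h * rf / dt| := abs_mul _ _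
        _ ≤ 1 * C := mul_le_mul hε1 q2 (abs_nonneg _) zero_le_one
        _ ≤ _ := by linarith only [hC]
    have b3 : |-(2 ^ h * gf / dt)| ≤ 3 * C := by
      rw [abs_neg]
      linarith only [hC, q1]
    have b4 : |2 ^ h * rf / dt| ≤ 3 * C := by linarith only [hC, q2]
    refine ⟨_, _, _, _, b1, b2, b3, b4, fun xf xs => ?_⟩
    have key : 2 ^ h * xs = -(2 ^ h * gf / dt) * (rf * xf + rs * xs) +
        2 ^ h * rf / dt * (gf * xf + gs * xs) := by
      field_simp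
      rw [hdt]
      ring
    refine ⟨?_, key⟩
    have ha : (⌊2 ^ p * σ⌋ : ℝ) = ε + 2 ^ p * σ := by rw [hε]; ring
    have hx : 2 ^ (h + p) / rf * (rf * xf + rs * xs) = 2 ^ h * (2 ^ p * xf + 2 ^ p * σ * xs) := by
      rw [hσ, pow_add]
      field_simp
    rw [ha]
    calc 2 ^ h * (2 ^ p * xf + (ε + 2 ^ p * σ) * xs) =
          2 ^ h * (2 ^ p * xf + 2 ^ p * σ * xs) + ε * (2 ^ h * xs) := by ring
      _ = 2 ^ (h + p) / rf * (rf * xf + rs * xs) + ε * (-(2 ^ h * gf / dt) * (rf * xf + rs * xs) +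
        2 ^ h * rf / dt * (gf * xf + gs * xs)) := by rw [hx, key]
      _ = _ := by ring
  · calc |dt| = D * |rf| := hDM.symm
      _ ≤ 2 * C * 2 ^ h * (2 * C * 2 ^ (h + p)) :=
        mul_le_mul e2 e4 hM.le (by positivity)
      _ = 4 * C ^ 2 * 2 ^ (2 * h + p) := by
        rw [show 2 * h + p = h + (h + p) by ring, pow_add 2 h (h + p)]
        ring
  · have h5 : 2 ^ h * (2 ^ p * |dt|) ≤ 2 ^ h * (4 * C ^ 2 * |rf| ^ 2) := by
      calc 2 ^ h * (2 ^ p * |dt|) = 2 ^ (h + p) * (D * |rf|) := by rw [hDM, pow_add]; ring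
        _ ≤ 2 * C * |rf| * (2 * C * 2 ^ h * |rf|) := by
          refine mul_le_mul e3 ?_ (by positivity) (by positivity)
          exact mul_le_mul_of_nonneg_right e2 hM.le
        _ = _ := by ring
    exact le_of_mul_le_mul_left h5 h2h0

theorem row_eq (c : Bool) (g x : Fin 2 → ℝ) :
    ∑ j, g j * x j = g (ix c) * x (ix c) + g (iy c) * x (iy c) := by
  rw [Fin.sum_univ_two]
  cases c
  · rfl
  · exact add_comm _ _

theorem sum_eq {k₀ k₁ : Fin 2} (hk : (k₀ = 0 ∧ k₁ = 1) ∨ (k₀ = 1 ∧ k₁ = 0)) (g : Fin 2 → ℝ) :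
    ∑ k, g k = g k₀ + g k₁ := by
  rw [Fin.sum_univ_two]
  rcases hk with ⟨rfl, rfl⟩ | ⟨rfl, rfl⟩
  · rfl
  · exact add_comm _ _

theorem det_eq {k₀ k₁ : Fin 2} (hk : (k₀ = 0 ∧ k₁ = 1) ∨ (k₀ = 1 ∧ k₁ = 0)) (c : Bool)
    (A : Fin 2 → Fin 2 → ℝ) :
    |A k₀ (ix c) * A k₁ (iy c) - A k₀ (iy c) * A k₁ (ix c)| =
      |A 0 0 * A 1 1 - A 0 1 * A 1 0| := by
  rcases hk with ⟨rfl, rfl⟩ | ⟨rfl, rfl⟩
  · cases c
    · rfl
    · exact abs_sub_comm _ _
  · cases c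
    · change |A 1 0 * A 0 1 - A 1 1 * A 0 0| = _
      rw [abs_sub_comm, mul_comm (A 1 1), mul_comm (A 1 0)]
    · change |A 1 1 * A 0 0 - A 1 0 * A 0 1| = _
      rw [mul_comm (A 1 1), mul_comm (A 1 0)]

/-- The section, when the entry with the index `(k₀, ix c)` is the largest one. -/
theorem main {C C₁ : ℝ} {w R : ℕ} (hC : 1 ≤ C) (hC₁ : 3 * C ≤ C₁)
    (hC₂ : Real.log (4 * C ^ 2) ≤ C₁) (hwR : w ≤ R) {A : Fin 2 → Fin 2 → ℝ} {k₀ k₁ : Fin 2}
    (hk : (k₀ = 0 ∧ k₁ = 1) ∨ (k₀ = 1 ∧ k₁ = 0)) {c : Bool}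
    (hmax : ∀ i j, |A i j| ≤ |A k₀ (ix c)|)
    (hA : ∀ (x : Fin 2 → ℝ) (i : Fin 2),
      2 ^ w * |x i| ≤ C * (|∑ j, A 0 j * x j| + |∑ j, A 1 j * x j|))
    (hR : ∀ i j, |A i j| ≤ C * 2 ^ R) :
    ∃ q : Sec, Ok w R q ∧
      (∃ T : Fin 2 → Fin 2 → ℝ, (∀ i j, |T i j| ≤ C₁) ∧
        ∀ (x : Fin 2 → ℝ) (i : Fin 2), q.co x i = ∑ k, T i k * ∑ j, A k j * x j) ∧
      Real.log |A 0 0 * A 1 1 - A 0 1 * A 1 0| ≤ (2 * (q.h : ℝ) + q.p) * Real.log 2 + C₁ ∧
      ∀ M : ℝ, (∀ i j, |A i j| ≤ M) → q.p * Real.log 2 ≤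
        2 * Real.log M - Real.log |A 0 0 * A 1 1 - A 0 1 * A 1 0| + C₁ := by
  have hC0 : 0 < C := by linarith only [hC]
  have hw0 : (0 : ℝ) < 2 ^ w := by positivity
  have hrf : A k₀ (ix c) ≠ 0 := by
    intro h0
    have hz : ∀ i j, A i j = 0 := by
      intro i j
      have h := hmax i j
      rw [h0, abs_zero] at h
      exact abs_eq_zero.1 (le_antisymm h (abs_nonneg _))
    have h := hA (fun _ => 1) 0
    simp only [hz, Finset.sum_const_zero, abs_zero, add_zero, mul_zero, abs_one,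
      mul_one] at h
    linarith only [hw0, h]
  have hne : (ix c = iy c) = False := by
    cases c
    · simp [ix, iy]
    · simp [ix, iy]
  have h1 : 2 ^ w * |A k₀ (ix c)| ≤
      C * |A k₀ (ix c) * A k₁ (iy c) - A k₀ (iy c) * A k₁ (ix c)| := by
    have h := hA (fun i => if i = ix c then -A k₀ (iy c) else A k₀ (ix c)) (iy c)
    have e0 : |∑ j, A 0 j * (if j = ix c then -A k₀ (iy c) else A k₀ (ix c))| +
        |∑ j, A 1 j * (if j = ix c then -A k₀ (iy c) else A k₀ (ix c))| =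
        ∑ k, |∑ j, A k j * (if j = ix c then -A k₀ (iy c) else A k₀ (ix c))| :=
      (Fin.sum_univ_two fun k =>
        |∑ j, A k j * (if j = ix c then -A k₀ (iy c) else A k₀ (ix c))|).symm
    rw [e0, sum_eq hk, row_eq c, row_eq c] at h
    simp only [if_true, eq_comm (a := iy c), hne, if_false] at h
    have e1 : A k₀ (ix c) * -A k₀ (iy c) + A k₀ (iy c) * A k₀ (ix c) = 0 := by ring
    have e2 : A k₁ (ix c) * -A k₀ (iy c) + A k₁ (iy c) * A k₀ (ix c) =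
        A k₀ (ix c) * A k₁ (iy c) - A k₀ (iy c) * A k₁ (ix c) := by ring
    rw [e1, e2, abs_zero, zero_add] at h
    exact h
  obtain ⟨h, p, a, hw, hhp, ha, ⟨t₀, t₁, t₂, t₃, b₀, b₁, b₂, b₃, hT⟩, hd1, hd2⟩ :=
    core hC hwR hrf (hmax _ _) (hmax _ _) (hmax _ _) h1 (hR _ _)
  rw [det_eq hk c] at hd1 hd2 h1
  have hdp : 0 < |A 0 0 * A 1 1 - A 0 1 * A 1 0| := by
    by_contra hc
    have h4 : C * |A 0 0 * A 1 1 - A 0 1 * A 1 0| ≤ 0 :=
      mul_nonpos_of_nonneg_of_nonpos hC0.le (not_lt.1 hc)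
    have h5 : 0 < 2 ^ w * |A k₀ (ix c)| := mul_pos hw0 (abs_pos.2 hrf)
    linarith only [h1, h4, h5]
  refine ⟨⟨c, h, p, a⟩, ⟨hw, hhp, ha⟩,
    ⟨fun i k => if k = k₀ then (if i = 0 then t₀ else t₂) else (if i = 0 then t₁ else t₃), ?_, ?_⟩,
    ?_, ?_⟩
  · intro i j
    dsimp only
    split_ifs <;> linarith
  · intro x i
    have hk10 : (k₁ = k₀) = False := by
      rcases hk with ⟨rfl, rfl⟩ | ⟨rfl, rfl⟩
      · simp
      · simp
    rw [sum_eq hk, row_eq c, row_eq c]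
    simp only [if_true, hk10, if_false]
    obtain ⟨hx1, hx2⟩ := hT (x (ix c)) (x (iy c))
    match i with
    | 0 => exact hx1
    | 1 =>
      simp only [Fin.isValue, one_ne_zero, if_false]
      exact hx2
  · have h5 : Real.log |A 0 0 * A 1 1 - A 0 1 * A 1 0| ≤
        Real.log (4 * C ^ 2 * 2 ^ (2 * h + p)) := Real.log_le_log hdp hd1
    rw [Real.log_mul (by positivity) (by positivity), Real.log_pow] at h5
    push_cast at h5 ⊢
    linarith only [hC₂, h5]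
  · intro M hM
    have hA0 : 0 < |A k₀ (ix c)| := abs_pos.2 hrf
    have hM0 : 0 < M := hA0.trans_le (hM _ _)
    have h5 : 2 ^ p * |A 0 0 * A 1 1 - A 0 1 * A 1 0| ≤ 4 * C ^ 2 * M ^ 2 := by
      refine hd2.trans ?_
      exact mul_le_mul_of_nonneg_left (pow_le_pow_left₀ hA0.le (hM _ _) 2) (by positivity)
    have h6 := Real.log_le_log (by positivity) h5
    rw [Real.log_mul (by positivity) hdp.ne', Real.log_mul (by positivity) (by positivity),
      Real.log_pow, Real.log_pow] at h6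
    push_cast at h6 ⊢
    linarith only [hC₂, h6]

end Cnv

/-- **Row CONV.** -/
theorem conv_thm : CONVStmt := by
  intro C₀
  obtain ⟨C, hC⟩ : ∃ C, C = max 1 C₀ := ⟨_, rfl⟩
  have hC1 : 1 ≤ C := by rw [hC]; exact le_max_left _ _
  have hC2 : C₀ ≤ C := by rw [hC]; exact le_max_right _ _
  have hlog : 0 ≤ Real.log (4 * C ^ 2) := Real.log_nonneg (by nlinarith only [hC1])
  refine ⟨3 * C + Real.log (4 * C ^ 2), by linarith only [hC1, hlog], ?_⟩
  intro w R A hwR hA hR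
  have hA' : ∀ (x : Fin 2 → ℝ) (i : Fin 2),
      2 ^ w * |x i| ≤ C * (|∑ j, A 0 j * x j| + |∑ j, A 1 j * x j|) := fun x i =>
    (hA x i).trans (mul_le_mul_of_nonneg_right hC2 (by positivity))
  have hR' : ∀ i j, |A i j| ≤ C * 2 ^ R := fun i j =>
    (hR i j).trans (mul_le_mul_of_nonneg_right hC2 (by positivity))
  obtain ⟨⟨k₀, j₀⟩, -, hmax⟩ := Finset.exists_max_image (Finset.univ : Finset (Fin 2 × Fin 2))
    (fun e => |A e.1 e.2|) Finset.univ_nonempty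
  have hmax' : ∀ i j, |A i j| ≤ |A k₀ j₀| := fun i j => hmax (i, j) (Finset.mem_univ _)
  obtain ⟨k₁, hk⟩ : ∃ k₁ : Fin 2, (k₀ = 0 ∧ k₁ = 1) ∨ (k₀ = 1 ∧ k₁ = 0) := by
    match k₀ with
    | 0 => exact ⟨1, Or.inl ⟨rfl, rfl⟩⟩
    | 1 => exact ⟨0, Or.inr ⟨rfl, rfl⟩⟩
  obtain ⟨c, hc⟩ : ∃ c : Bool, j₀ = ix c := by
    match j₀ with
    | 0 => exact ⟨false, rfl⟩
    | 1 => exact ⟨true, rfl⟩
  subst hc
  exact Cnv.main hC1 (by linarith only [hlog]) (by linarith only [hC1]) hwR hk hmax' hA' hR'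

end Pool.KM7
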